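import Pool.Agent.H.MP_195d7c_lc.A

namespace Pool.Agent.Results.MP_195d7c_lc.NonRegular

open Pool.Agent.H.MP_195d7c_lc

/-- the equality set of two morphisms of free monoids -/
def E {S D : Type} (h g : FreeMonoid S →* FreeMonoid D) : Language S :=
  {w : List S | h (FreeMonoid.ofList w) = g (FreeMonoid.ofList w)}

theorem result (n : ℕ) (hn : 3 ≤ n) :
    ∃ (m : ℕ) (h g : FreeMonoid (Fin n) →* FreeMonoid (Fin m)),
      Function.Injective h ∧ Function.Injective g ∧
      ¬ (E h g).IsRegular := by
  obtain ⟨k, rfl⟩ := Nat.exists_eq_add_of_le hn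
  let e : L (Fin k) ≃ Fin (3 + k) := eqv.trans finSumFinEquiv
  let F : (L (Fin k) → List (L (Fin k))) → FreeMonoid (Fin (3 + k)) →* FreeMonoid (Fin (3 + k)) :=
    fun f => FreeMonoid.lift fun i => FreeMonoid.ofList ((f (e.symm i)).map e)
  have hF : ∀ f (w : List (Fin (3 + k))),
      F f (FreeMonoid.ofList w) = FreeMonoid.ofList (((w.map e.symm).flatMap f).map e) := by
    intro f w
    induction w with
    | nil => rfl
    | cons i w ih =>
      rw [FreeMonoid.ofList_cons, map_mul, ih]
      simp [F]
  have hE : ∀ f f' (w w' : List (Fin (3 + k))),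
      F f (FreeMonoid.ofList w) = F f' (FreeMonoid.ofList w') ↔
        (w.map e.symm).flatMap f = (w'.map e.symm).flatMap f' := by
    intro f f' w w'
    rw [hF, hF, FreeMonoid.ofList.injective.eq_iff, (List.map_injective_iff.2 e.injective).eq_iff]
  have inj : ∀ f, (∀ u v : List (L (Fin k)), u.flatMap f = v.flatMap f → u = v) →
      Function.Injective (F f) := by
    intro f hf u v h
    have := hf _ _ ((hE f f u.toList v.toList).1 h)
    exact FreeMonoid.toList.injective ((List.map_injective_iff.2 e.symm.injective) this)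
  refine ⟨3 + k, F H, F G, inj _ H_inj, inj _ G_inj, fun hr => ?_⟩
  have key : ∀ i j : ℕ, (s j).map e ∈ (E (F H) (F G)).leftQuotient ((p i).map e) ↔ i = j := by
    intro i j
    rw [Language.mem_leftQuotient, ← sol (T := Fin k)]
    change F H _ = F G _ ↔ _
    rw [hE, ← List.map_append, List.map_map]
    simp
  refine Set.infinite_of_injective_forall_mem
    (f := fun i : ℕ => (E (F H) (F G)).leftQuotient ((p i).map e)) (fun i j h => ?_)
    (fun i => Set.mem_range_self _) hr.finite_range_leftQuotient
  have h' : (E (F H) (F G)).leftQuotient ((p i).map e) =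
      (E (F H) (F G)).leftQuotient ((p j).map e) := h
  rw [← key, h', key]

end Pool.Agent.Results.MP_195d7c_lc.NonRegular
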